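import Pool.Agent.Helper74.DI.StM

/-!
# Project DI (MP_26f0da_lc), module FIN: finite intersections
-/

set_option autoImplicit false

namespace Pool.Agent.Helper6.DI

open Pool.Agent.Helper74 Pool.Agent.Helper74.DI

theorem hFIN (hINT : StINT) (hALP : StALP) : StFIN := by
  intro α ι F K hK
  classical
  induction F using Finset.induction_on with
  | empty =>
    have h := hALP α (fun _ => True)
    have e : {w : List α | ∀ i ∈ (∅ : Finset ι), w ∈ K i} =
        {w : List α | ∀ x ∈ w, (fun _ => True) x} := by
      ext w
      simp only [Set.mem_ofPred_eq]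
      exact ⟨fun _ _ _ => trivial, fun _ i hi => absurd hi (Finset.notMem_empty i)⟩
    rw [e]
    exact h
  | insert a s ha ih =>
    have h1 := ih (fun i hi => hK i (Finset.mem_insert_of_mem hi))
    have h2 := hINT α (K a) {w : List α | ∀ i ∈ s, w ∈ K i}
      (hK a (Finset.mem_insert_self a s)) h1
    have e : {w : List α | ∀ i ∈ insert a s, w ∈ K i} =
        K a ∩ {w : List α | ∀ i ∈ s, w ∈ K i} := by
      ext w
      constructor
      · intro h
        exact ⟨h a (Finset.mem_insert_self a s), fun i hi => h i (Finset.mem_insert_of_mem hi)⟩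
      · rintro ⟨h3, h4⟩ i hi
        rcases Finset.mem_insert.1 hi with rfl | hi'
        · exact h3
        · exact h4 i hi'
    rw [e]
    exact h2

end Pool.Agent.Helper6.DI
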